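import Mathlib

/-!
# An equistable graph that is not weakly CIS

Let `G` be the following triangle-free graph with 9 vertices and 14 edges, and let `H` be the
complement of its line graph. The maximal stable sets of `H` are exactly the nine stars of `G`, the
cliques of `H` are the matchings of `G`. The edge weights `w` of `G` (with the total weight `130` at
each vertex of `G`) have the property that the stars are the only sets of edges of total weight
`130`, so `w / 130` shows that `H` is equistable. Two distinct edges of `G` with a common end are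
contained in only one maximal stable set of `H`, so each non-edge covering family of maximal stable
sets contains all the nine stars. A clique of `H` that meets all of them would be a perfect matching
of `G`, but `G` has an odd number of vertices. So `H` is not weakly CIS.
-/

set_option autoImplicit false

namespace Pool.Agent.Results.MP_59918e_co.EquistableNotWeaklyCIS

open Finset

/-- Maximal stable sets (maximal with respect to inclusion). -/
def IsMaximalStable {V : Type} (G : SimpleGraph V) (S : Finset V) : Prop :=
  Maximal (fun T : Finset V => ∀ u ∈ T, ∀ v ∈ T, ¬ G.Adj u v) S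

/-- Maximal cliques (maximal with respect to inclusion). -/
def IsMaximalClique {V : Type} (G : SimpleGraph V) (C : Finset V) : Prop :=
  Maximal (fun T : Finset V => ∀ u ∈ T, ∀ v ∈ T, u ≠ v → G.Adj u v) C

/-- Equistable graphs: for some nonnegative weight function the maximal stable sets are exactly the
sets of vertices of total weight `1`. -/
def Equistable {V : Type} (G : SimpleGraph V) : Prop :=
  ∃ φ : V → ℝ, (∀ v, 0 ≤ φ v) ∧ ∀ S : Finset V, IsMaximalStable G S ↔ ∑ v ∈ S, φ v = 1

/-- Weakly CIS graphs: there are an edge covering family `𝒞` of maximal cliques and a non-edge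
covering family `𝒮` of maximal stable sets that are cross-intersecting. -/
def WeaklyCIS {V : Type} (G : SimpleGraph V) : Prop :=
  ∃ 𝒞 𝒮 : Set (Finset V),
    (∀ C ∈ 𝒞, IsMaximalClique G C) ∧ (∀ S ∈ 𝒮, IsMaximalStable G S) ∧
    (∀ u v, G.Adj u v → ∃ C ∈ 𝒞, u ∈ C ∧ v ∈ C) ∧
    (∀ u v, u ≠ v → ¬ G.Adj u v → ∃ S ∈ 𝒮, u ∈ S ∧ v ∈ S) ∧
    ∀ C ∈ 𝒞, ∀ S ∈ 𝒮, ∃ v, v ∈ C ∧ v ∈ S

/-- The ends of the 14 edges of the triangle-free graph `G`. -/
def ends : Fin 14 → Fin 9 × Fin 9 :=
  ![(0, 6), (2, 5), (0, 8), (3, 4), (3, 5), (1, 5), (1, 7), (4, 7), (0, 3), (1, 6), (7, 8), (2, 4),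
    (4, 6), (2, 8)]

/-- The weights of the edges. -/
def wt : Fin 14 → ℕ := ![44, 59, 31, 38, 37, 34, 45, 32, 55, 51, 53, 25, 35, 46]

/-- The vertex `v` is an end of the edge `e`. -/
def Inc (v : Fin 9) (e : Fin 14) : Prop := v = (ends e).1 ∨ v = (ends e).2

instance (v : Fin 9) (e : Fin 14) : Decidable (Inc v e) := by
  unfold Inc; infer_instance

/-- The edges `e` and `f` have a common end (or are equal). -/
def Meet (e f : Fin 14) : Prop := ∃ v, Inc v e ∧ Inc v f

instance (e f : Fin 14) : Decidable (Meet e f) := by
  unfold Meet; infer_instance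

theorem meet_self (e : Fin 14) : Meet e e := ⟨(ends e).1, Or.inl rfl, Or.inl rfl⟩

/-- The complement of the line graph of `G`. -/
def H : SimpleGraph (Fin 14) where
  Adj e f := ¬ Meet e f
  symm := ⟨fun _ _ h ⟨v, hv1, hv2⟩ => h ⟨v, hv2, hv1⟩⟩
  loopless := ⟨fun e h => h (meet_self e)⟩

theorem H_adj (e f : Fin 14) : H.Adj e f ↔ ¬ Meet e f := Iff.rfl

/-- The star of the vertex `v` of `G`. -/
def star (v : Fin 9) : Finset (Fin 14) := univ.filter (fun e => Inc v e)

theorem mem_star (v : Fin 9) (e : Fin 14) : e ∈ star v ↔ Inc v e := by simp [star]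

theorem star_stable (v : Fin 9) : ∀ e ∈ star v, ∀ f ∈ star v, ¬ H.Adj e f := by
  intro e he f hf h
  exact h ⟨v, (mem_star v e).1 he, (mem_star v f).1 hf⟩

/-- Every vertex has degree at least two, and two edges at `v` determine the star of `v`. -/
theorem two_edges : ∀ v : Fin 9, ∃ e f : Fin 14, e ≠ f ∧ Inc v e ∧ Inc v f := by
  decide +kernel

theorem helly : ∀ v : Fin 9, ∀ e f g : Fin 14, e ≠ f → Inc v e → Inc v f → Meet g e → Meet g f →
    Inc v g := by
  decide +kernel

theorem other_edge : ∀ e : Fin 14, ∃ f : Fin 14, f ≠ e ∧ Inc (ends e).1 f := by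
  decide +kernel

theorem star_maximal (v : Fin 9) : IsMaximalStable H (star v) := by
  refine ⟨star_stable v, ?_⟩
  intro T hT hle g hg
  obtain ⟨e, f, hef, he, hf⟩ := two_edges v
  have he' : e ∈ T := hle ((mem_star v e).2 he)
  have hf' : f ∈ T := hle ((mem_star v f).2 hf)
  have h1 : Meet g e := by
    have := hT g hg e he'
    rw [H_adj, not_not] at this
    exact this
  have h2 : Meet g f := by
    have := hT g hg f hf'
    rw [H_adj, not_not] at this
    exact this
  exact (mem_star v g).2 (helly v e f g hef he hf h1 h2)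

/-- A stable set with two edges at `v` is contained in the star of `v`. -/
theorem sub_star {T : Finset (Fin 14)} (hT : ∀ u ∈ T, ∀ v ∈ T, ¬ H.Adj u v) {v : Fin 9}
    {e f : Fin 14} (hef : e ≠ f) (he : e ∈ T) (hf : f ∈ T) (hve : Inc v e) (hvf : Inc v f) :
    T ⊆ star v := by
  intro g hg
  have h1 : Meet g e := by
    have := hT g hg e he
    rw [H_adj, not_not] at this
    exact this
  have h2 : Meet g f := by
    have := hT g hg f hf
    rw [H_adj, not_not] at this
    exact this
  exact (mem_star v g).2 (helly v e f g hef hve hvf h1 h2)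

theorem eq_star {T : Finset (Fin 14)} (hT : IsMaximalStable H T) {v : Fin 9}
    {e f : Fin 14} (hef : e ≠ f) (he : e ∈ T) (hf : f ∈ T) (hve : Inc v e) (hvf : Inc v f) :
    T = star v := by
  have h1 := sub_star hT.1 hef he hf hve hvf
  exact le_antisymm h1 (hT.2 (star_stable v) h1)

theorem maximal_eq_star {T : Finset (Fin 14)} (hT : IsMaximalStable H T) : ∃ v, T = star v := by
  rcases T.eq_empty_or_nonempty with rfl | ⟨e, he⟩
  · exfalso
    have h1 : (star 0) ≤ (∅ : Finset (Fin 14)) := hT.2 (star_stable 0) (by simp)
    have h2 : (0 : Fin 14) ∈ star 0 := by decide +kernel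
    simpa using h1 h2
  · by_cases h : ∃ f ∈ T, f ≠ e
    · obtain ⟨f, hf, hfe⟩ := h
      have h1 := hT.1 e he f hf
      rw [H_adj, not_not] at h1
      obtain ⟨v, hv1, hv2⟩ := h1
      exact ⟨v, eq_star hT hfe.symm he hf hv1 hv2⟩
    · exfalso
      push Not at h
      obtain ⟨f, hfe, hf⟩ := other_edge e
      have h1 : T ⊆ star (ends e).1 := by
        intro g hg
        rw [h g hg]
        exact (mem_star _ _).2 (Or.inl rfl)
      have h2 := hT.2 (star_stable _) h1 ((mem_star _ _).2 hf)
      exact hfe (h f h2)

/-! ### The sets of total weight 130 -/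

/-- All 0-1-vectors `b` with `∑ b i * w i = t` are in the list `c`. -/
def go : List ℕ → ℕ → List (List Bool) → Bool
  | [], t, c => (t != 0) || c.contains []
  | w :: ws, t, c =>
      go ws t (c.filterMap fun l => match l with
        | false :: l' => some l'
        | _ => none) &&
      (if w ≤ t then go ws (t - w) (c.filterMap fun l => match l with
        | true :: l' => some l'
        | _ => none) else true)

/-- The weight of a 0-1-vector. -/
def tot : List ℕ → List Bool → ℕ
  | w :: ws, b :: bs => (if b then w else 0) + tot ws bs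
  | _, _ => 0

theorem go_sound (ws : List ℕ) : ∀ (t : ℕ) (c : List (List Bool)), go ws t c = true →
    ∀ b : List Bool, b.length = ws.length → tot ws b = t → b ∈ c := by
  induction ws with
  | nil =>
    intro t c h b hb ht
    have hb' : b = [] := List.length_eq_zero_iff.1 hb
    subst hb'
    simp only [tot] at ht
    subst ht
    simpa [go] using h
  | cons w ws ih =>
    intro t c h b hb ht
    match b, hb with
    | b0 :: bs, hb =>
      simp only [List.length_cons, Nat.add_right_cancel_iff] at hb
      rw [go, Bool.and_eq_true] at h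
      obtain ⟨h1, h2⟩ := h
      cases b0 with
      | false =>
        simp only [tot] at ht
        have h3 := ih t _ h1 bs hb (by simpa using ht)
        rw [List.mem_filterMap] at h3
        obtain ⟨l, hl, hl'⟩ := h3
        split at hl'
        · cases hl'
          exact hl
        · cases hl'
      | true =>
        simp only [tot, if_true] at ht
        have hw : w ≤ t := by omega
        rw [if_pos hw] at h2
        have h3 := ih (t - w) _ h2 bs hb (by omega)
        rw [List.mem_filterMap] at h3
        obtain ⟨l, hl, hl'⟩ := h3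
        split at hl'
        · cases hl'
          exact hl
        · cases hl'

/-- The 0-1-vector of a set of edges. -/
def vec (T : Finset (Fin 14)) : List Bool := List.ofFn fun e => decide (e ∈ T)

theorem vec_inj {S T : Finset (Fin 14)} (h : vec S = vec T) : S = T := by
  unfold vec at h
  rw [List.ofFn_inj] at h
  ext e
  have := congrFun h e
  simpa using this

theorem tot_vec (T : Finset (Fin 14)) : tot (List.ofFn wt) (vec T) = ∑ e ∈ T, wt e := by
  have h1 : ∑ e ∈ T, wt e = ∑ e : Fin 14, (if decide (e ∈ T) = true then wt e else 0) := by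
    simp
  rw [h1]
  simp only [Fin.sum_univ_succ, vec, List.ofFn_succ, tot, Finset.univ_eq_empty, Finset.sum_empty,
    List.ofFn_zero]

theorem go_true : go (List.ofFn wt) 130 (List.ofFn fun v => vec (star v)) = true := by
  decide +kernel

theorem star_weight : ∀ v : Fin 9, ∑ e ∈ star v, wt e = 130 := by
  decide +kernel

theorem weight_iff (T : Finset (Fin 14)) : ∑ e ∈ T, wt e = 130 ↔ ∃ v, T = star v := by
  constructor
  · intro h
    have h1 := go_sound _ _ _ go_true (vec T) (by simp [vec]) (by rw [tot_vec, h])
    rw [List.mem_ofFn] at h1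
    obtain ⟨v, hv⟩ := h1
    exact ⟨v, (vec_inj hv).symm⟩
  · rintro ⟨v, rfl⟩
    exact star_weight v

theorem equistable_H : Equistable H := by
  refine ⟨fun e => (wt e : ℝ) / 130, fun e => by positivity, fun S => ?_⟩
  have h1 : ∑ e ∈ S, (wt e : ℝ) / 130 = 1 ↔ ∑ e ∈ S, wt e = 130 := by
    rw [← Finset.sum_div, div_eq_one_iff_eq (by norm_num)]
    exact_mod_cast Iff.rfl
  rw [h1, weight_iff]
  constructor
  · exact maximal_eq_star
  · rintro ⟨v, rfl⟩
    exact star_maximal v

/-! ### Not weakly CIS -/

theorem two_ends : ∀ e : Fin 14, (univ.filter fun v : Fin 9 => Inc v e).card = 2 := by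
  decide +kernel

theorem not_weaklyCIS_H : ¬ WeaklyCIS H := by
  rintro ⟨𝒞, 𝒮, h1, h2, h3, h4, h5⟩
  -- all stars are in the family of stable sets
  have hs : ∀ v, star v ∈ 𝒮 := by
    intro v
    obtain ⟨e, f, hef, he, hf⟩ := two_edges v
    obtain ⟨S, hS, heS, hfS⟩ := h4 e f hef (fun h => h ⟨v, he, hf⟩)
    have := eq_star (h2 S hS) hef heS hfS he hf
    rwa [← this]
  -- a member of the family of cliques
  obtain ⟨C, hC, -, -⟩ := h3 0 1 (by
    show ¬ Meet 0 1
    decide +kernel)
  have hcl := (h1 C hC).1
  -- it has exactly one edge in each star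
  have hone : ∀ v, (C.filter fun e => Inc v e).card = 1 := by
    intro v
    obtain ⟨e, heC, hes⟩ := h5 C hC (star v) (hs v)
    rw [mem_star] at hes
    rw [Finset.card_eq_one]
    refine ⟨e, ?_⟩
    ext f
    simp only [Finset.mem_filter, Finset.mem_singleton]
    constructor
    · rintro ⟨hf, hvf⟩
      by_contra hne
      exact hcl f hf e heC hne ⟨v, hvf, hes⟩
    · rintro rfl
      exact ⟨heC, hes⟩
  have hdc : ∑ v : Fin 9, (C.filter fun e => Inc v e).card =
      ∑ e ∈ C, (univ.filter fun v : Fin 9 => Inc v e).card := by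
    simp only [Finset.card_filter]
    rw [Finset.sum_comm]
  simp only [hone, two_ends, Finset.sum_const, Finset.card_univ, Fintype.card_fin,
    smul_eq_mul] at hdc
  omega

/-- There is a finite simple graph that is equistable but not weakly CIS. -/
theorem result : ∃ (n : ℕ) (G : SimpleGraph (Fin n)), Equistable G ∧ ¬ WeaklyCIS G :=
  ⟨14, H, equistable_H, not_weaklyCIS_H⟩

end Pool.Agent.Results.MP_59918e_co.EquistableNotWeaklyCIS
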